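import Mathlib.LinearAlgebra.Alternating.Curry
import Mathlib.LinearAlgebra.Alternating.DomCoprod
import Mathlib.LinearAlgebra.Basis.VectorSpace
import Mathlib.LinearAlgebra.Alternating.Basic

/-!
# The complement of a subspace which is given by an alternating form
-/

open Module

namespace Pool.Agent.Q57.SS

variable {K A : Type*} [Field K] [AddCommGroup A] [Module K A] {n : ℕ}
  (U V : Submodule K A) (F : A [⋀^Fin (n + 1)]→ₗ[K] K)

/-- The elements `x` of `U` such that `F (x, y_1, …, y_n) = 0` for all `y_i` in `V`. -/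
def cpl : Submodule K A where
  carrier := {x | x ∈ U ∧ ∀ y : Fin n → A, (∀ j, y j ∈ V) → F.curryLeft x y = 0}
  add_mem' := by
    rintro a b ⟨ha, ha'⟩ ⟨hb, hb'⟩
    refine ⟨U.add_mem ha hb, fun y hy => ?_⟩
    rw [map_add, AlternatingMap.add_apply, ha' y hy, hb' y hy, add_zero]
  zero_mem' := ⟨U.zero_mem, fun y _ => by rw [map_zero, AlternatingMap.zero_apply]⟩
  smul_mem' := by
    rintro c a ⟨ha, ha'⟩
    refine ⟨U.smul_mem c ha, fun y hy => ?_⟩
    rw [map_smul, AlternatingMap.smul_apply, ha' y hy, smul_zero]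

variable {U V F}

lemma mem_cpl {x : A} : x ∈ cpl U V F ↔
    x ∈ U ∧ ∀ y : Fin n → A, (∀ j, y j ∈ V) → F.curryLeft x y = 0 := Iff.rfl

lemma cpl_le : cpl U V F ≤ U := fun _ hx => hx.1

/-- The first variable of the form is exchanged with the variable `m`. -/
lemma cons_basis (e : Fin (n + 1) → A) (x : A) {v : Fin n → Fin (n + 1)}
    (hv : Function.Injective v) {m : Fin (n + 1)} (hm : ∀ j, v j ≠ m) :
    ∃ s : ℤˣ, F.curryLeft x (fun j => e (v j)) = s • F (Function.update e m x) := by
  have hinj : Function.Injective (Fin.cons m v : Fin (n + 1) → Fin (n + 1)) := by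
    rw [Fin.cons_injective_iff]
    exact ⟨fun ⟨j, hj⟩ => hm j hj, hv⟩
  let σ : Equiv.Perm (Fin (n + 1)) :=
    Equiv.ofBijective _ (Finite.injective_iff_bijective.1 hinj)
  have h1 : (Function.update e m x) ∘ σ = Matrix.vecCons x fun j => e (v j) := by
    funext i
    refine Fin.cases ?_ (fun j => ?_) i
    · change Function.update e m x (Fin.cons (α := fun _ => Fin (n + 1)) m v 0) = x
      rw [Fin.cons_zero, Function.update_self]
    · change Function.update e m x (Fin.cons (α := fun _ => Fin (n + 1)) m v j.succ) = e (v j)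
      rw [Fin.cons_succ, Function.update_of_ne (hm j)]
  refine ⟨Equiv.Perm.sign σ, ?_⟩
  rw [AlternatingMap.curryLeft_apply_apply, ← h1, AlternatingMap.map_perm]

lemma exists_missed {v : Fin n → Fin (n + 1)} (hv : Function.Injective v) :
    ∃ m, ∀ j, v j ≠ m := by
  by_contra h
  push Not at h
  have h1 : Function.Surjective v := h
  have h2 := Fintype.card_of_bijective ⟨hv, h1⟩
  simp at h2

/-- The conditions for a basis suffice. -/
lemma of_basis (e : Basis (Fin (n + 1)) K V) {x : A}
    (h : ∀ m, F (Function.update (fun j => (e j : A)) m x) = 0) (y : Fin n → A)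
    (hy : ∀ j, y j ∈ V) : F.curryLeft x y = 0 := by
  let g : V [⋀^Fin n]→ₗ[K] K := (F.curryLeft x).compLinearMap V.subtype
  have hg : g = 0 := by
    apply e.ext_alternating
    intro v hv
    obtain ⟨m, hm⟩ := exists_missed hv
    obtain ⟨s, hs⟩ := cons_basis (F := F) (fun j => (e j : A)) x hv hm
    rw [h m, smul_zero] at hs
    exact hs
  have h1 := congrArg (fun f : V [⋀^Fin n]→ₗ[K] K => f fun j => ⟨y j, hy j⟩) hg
  exact h1

/-- **The complement.** -/
theorem cpl_compl (e : Basis (Fin (n + 1)) K V) (hVU : V ≤ U)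
    (he : F (fun j => (e j : A)) ≠ 0) : V ⊓ cpl U V F = ⊥ ∧ V ⊔ cpl U V F = U := by
  have key : ∀ (m : Fin (n + 1)) (i : Fin (n + 1)),
      F (Function.update (fun j => (e j : A)) m (e i)) =
        if i = m then F (fun j => (e j : A)) else 0 := by
    intro m i
    split_ifs with h
    · subst h
      rw [Function.update_eq_self_iff.2 rfl]
    · refine F.map_eq_zero_of_eq _ (i := i) (j := m) ?_ h
      rw [Function.update_of_ne h, Function.update_self]
  constructor
  · rw [eq_bot_iff]
    rintro x ⟨hxV, -, hx⟩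
    rw [Submodule.mem_bot]
    by_contra h0
    have h1 : e.repr ⟨x, hxV⟩ ≠ 0 := by
      intro h
      apply h0
      have h2 := e.repr.map_eq_zero_iff.1 h
      exact congrArg Subtype.val h2
    obtain ⟨m, hm⟩ := Finsupp.ne_iff.1 h1
    rw [Finsupp.zero_apply] at hm
    have hxs : x = ∑ i, e.repr ⟨x, hxV⟩ i • (e i : A) := by
      have h2 := congrArg V.subtype (e.sum_repr ⟨x, hxV⟩)
      rw [map_sum] at h2
      exact h2.symm
    have h2 : F (Function.update (fun j => (e j : A)) m x) =
        e.repr ⟨x, hxV⟩ m * F (fun j => (e j : A)) := by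
      conv_lhs => rw [hxs]
      rw [AlternatingMap.map_update_sum]
      rw [Finset.sum_eq_single m]
      · rw [AlternatingMap.map_update_smul, key, if_pos rfl, smul_eq_mul]
      · intro i _ hi
        rw [AlternatingMap.map_update_smul, key, if_neg hi, smul_zero]
      · intro h; exact absurd (Finset.mem_univ m) h
    have hinj : Function.Injective m.succAbove := Fin.succAbove_right_injective
    obtain ⟨s, hs⟩ := cons_basis (F := F) (fun j => (e j : A)) x hinj (m := m)
      fun j => Fin.succAbove_ne m j
    rw [hx _ fun j => (e _).2, h2] at hs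
    have h3 : e.repr ⟨x, hxV⟩ m * F (fun j => (e j : A)) = 0 := by
      have h4 := congrArg (fun t => (s⁻¹ : ℤˣ) • t) hs
      simpa [smul_smul] using h4.symm
    exact mul_ne_zero hm he h3
  · apply le_antisymm (sup_le hVU cpl_le)
    intro x hx
    set c := (F fun j => (e j : A))⁻¹ with hc
    let p : A := ∑ i, (c * F (Function.update (fun j => (e j : A)) i x)) • (e i : A)
    have hp : p ∈ V := Submodule.sum_mem _ fun i _ => V.smul_mem _ (e i).2
    refine Submodule.mem_sup.2 ⟨p, hp, x - p, ⟨U.sub_mem hx (hVU hp), ?_⟩, by abel⟩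
    apply of_basis e
    intro m
    rw [AlternatingMap.map_update_sub]
    have h1 : F (Function.update (fun j => (e j : A)) m p) =
        F (Function.update (fun j => (e j : A)) m x) := by
      change F (Function.update (fun j => (e j : A)) m (∑ i, _ • (e i : A))) = _
      rw [AlternatingMap.map_update_sum, Finset.sum_eq_single m]
      · rw [AlternatingMap.map_update_smul, key, if_pos rfl, smul_eq_mul, hc, mul_comm _ (F _),
          ← mul_assoc, mul_inv_cancel₀ he, one_mul]
      · intro i _ hi
        rw [AlternatingMap.map_update_smul, key, if_neg hi, smul_zero]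
      · intro h; exact absurd (Finset.mem_univ m) h
    rw [h1, sub_self]

/-- The complement is stable under the operators which multiply the form by a scalar. -/
lemma cpl_stable {f : A →ₗ[K] A} (hfU : ∀ x ∈ U, f x ∈ U) (hfV : ∀ y ∈ V, ∃ z ∈ V, f z = y)
    {c : K} (hF : ∀ y : Fin (n + 1) → A, F (fun j => f (y j)) = c * F y) {x : A}
    (hx : x ∈ cpl U V F) : f x ∈ cpl U V F := by
  refine ⟨hfU x hx.1, fun y hy => ?_⟩
  choose z hz hzy using fun j => hfV (y j) (hy j)
  have h1 := hx.2 z hz
  have h2 := hF (Matrix.vecCons x z)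
  rw [AlternatingMap.curryLeft_apply_apply] at h1 ⊢
  rw [h1, mul_zero] at h2
  have h3 : (fun j => f (Matrix.vecCons x z j)) = Matrix.vecCons (f x) y := by
    funext i
    refine Fin.cases rfl (fun j => ?_) i
    exact hzy j
  rw [h3] at h2
  exact h2

end Pool.Agent.Q57.SS
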