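import Pool.Agent.Q57.SS.Defs
import Pool.Agent.Q57.SS.Lin
import Pool.Agent.Q60.TD.Rep2
import Pool.Agent.Q60.TD.Pair
import Pool.Agent.Q55.Det.ExtD

/-!
# Determinant lines and semisimplicity
-/

open CategoryTheory AlgebraicGeometry

universe u v w

namespace Pool.Agent.Q57.SS

open Module
open Pool.Agent.H914 Pool.Agent.H914.VarClass Pool.Agent.H914.VarClass.Obj
  Pool.Agent.H914.WeilCohomology Pool.Agent.Q55 Pool.Agent.Q55.Det Pool.Agent.Y133.Half
  Pool.Agent.Q60.TD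

section Maschke

variable {K V : Type*} [Field K] [AddCommGroup V] [Module K V] {G : Type*} [Group G]
  {ρ : G →* Module.End K V} {U W C : Submodule K V}

/-- A stable subspace which has a complement stable under a subgroup of finite index has a
stable complement. -/
theorem maschke_one [CharZero K] (Δ : Subgroup G) [Δ.FiniteIndex] (hU : Stab (Op ρ ⊤) U)
    (hW : W ≤ U) (hWs : Stab (Op ρ ⊤) W) (hCs : Stab (Op ρ Δ) C)
    (h1 : W ⊓ C = ⊥) (h2 : W ⊔ C = U) :
    ∃ C' ≤ U, Stab (Op ρ ⊤) C' ∧ W ⊓ C' = ⊥ ∧ W ⊔ C' = U := by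
  classical
  obtain ⟨p, hp1, hp2, hp3⟩ := exists_pr h1
  have hfin : Fintype (G ⧸ Δ) := Fintype.ofFinite _
  have hm : (Fintype.card (G ⧸ Δ) : K) ≠ 0 := Nat.cast_ne_zero.2 Fintype.card_ne_zero
  have hinv : ∀ g : G, ∀ v, ρ g (ρ g⁻¹ v) = v := fun g v => by
    have h1 : (ρ g * ρ g⁻¹) v = v := by rw [← map_mul, mul_inv_cancel, map_one]; rfl
    exact h1
  have hmul : ∀ g g' : G, ∀ v, ρ (g * g') v = ρ g (ρ g' v) := fun g g' v => by
    rw [map_mul]; rfl
  let T : G ⧸ Δ → V →ₗ[K] V := fun q => ρ q.out ∘ₗ p ∘ₗ ρ q.out⁻¹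
  have hT : ∀ q v, T q v = ρ q.out (p (ρ q.out⁻¹ v)) := fun q v => rfl
  have hUg : ∀ g : G, ∀ u ∈ U, ρ g u ∈ U := fun g u hu => hU _ (mem_Op (Subgroup.mem_top g)) u hu
  have hWg : ∀ g : G, ∀ u ∈ W, ρ g u ∈ W := fun g u hu => hWs _ (mem_Op (Subgroup.mem_top g)) u hu
  have hpΔ : ∀ δ ∈ Δ, ∀ u ∈ U, p (ρ δ u) = ρ δ (p u) := by
    intro δ hδ u hu
    rw [← h2] at hu
    obtain ⟨w, hw, c, hc, rfl⟩ := Submodule.mem_sup.1 hu
    rw [map_add, map_add, hp1 _ (hWg δ w hw), hp2 _ (hCs _ (mem_Op hδ) c hc), map_add, hp1 w hw,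
      hp2 c hc, add_zero, add_zero]
  have key : ∀ (g : G) (q : G ⧸ Δ) (u : V), u ∈ U → T (g • q) (ρ g u) = ρ g (T q u) := by
    intro g q u hu
    obtain ⟨δ, hδ, hout⟩ : ∃ δ ∈ Δ, (g • q).out = g * q.out * δ := by
      refine ⟨(g * q.out)⁻¹ * (g • q).out, ?_, by group⟩
      rw [← QuotientGroup.eq, ← smul_eq_mul, ← MulAction.Quotient.smul_mk,
        QuotientGroup.out_eq', QuotientGroup.out_eq']
    rw [hT, hT, hout]
    have h1 : (g * q.out * δ)⁻¹ = δ⁻¹ * (q.out⁻¹ * g⁻¹) := by group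
    rw [h1, hmul δ⁻¹, hmul q.out⁻¹, hmul (g * q.out) δ, hmul g q.out]
    have h2 : ρ g⁻¹ (ρ g u) = u := by
      have := hinv g⁻¹ u
      rwa [inv_inv] at this
    rw [h2]
    have h3 := hpΔ δ⁻¹ (Δ.inv_mem hδ) (ρ q.out⁻¹ u) (hUg _ _ hu)
    rw [h3, hinv]
  set P : V →ₗ[K] V := (Fintype.card (G ⧸ Δ) : K)⁻¹ • ∑ q, T q with hP
  have hP1 : ∀ w ∈ W, P w = w := by
    intro w hw
    rw [hP, LinearMap.smul_apply, LinearMap.sum_apply]
    have h1 : ∀ q, T q w = w := fun q => by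
      rw [hT, hp1 _ (hWg _ w hw), hinv]
    simp only [h1, Finset.sum_const, Finset.card_univ]
    rw [← Nat.cast_smul_eq_nsmul K, smul_smul, inv_mul_cancel₀ hm, one_smul]
  have hP2 : ∀ u ∈ U, P u ∈ W := by
    intro u hu
    rw [hP, LinearMap.smul_apply, LinearMap.sum_apply]
    exact Submodule.smul_mem _ _ (Submodule.sum_mem _ fun q _ => hWg _ _ (hp3 _))
  have hP3 : ∀ g : G, ∀ u ∈ U, P (ρ g u) = ρ g (P u) := by
    intro g u hu
    rw [hP, LinearMap.smul_apply, LinearMap.smul_apply, LinearMap.sum_apply, LinearMap.sum_apply,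
      map_smul, map_sum]
    congr 1
    rw [← Equiv.sum_comp (MulAction.toPerm g)]
    exact Finset.sum_congr rfl fun q _ => key g q u hu
  refine ⟨U ⊓ LinearMap.ker P, inf_le_left, ?_, ?_, ?_⟩
  · rintro _ ⟨g, -, rfl⟩ x ⟨hx, hx'⟩
    refine ⟨hUg g x hx, ?_⟩
    have h3 : P x = 0 := hx'
    change P (ρ g x) = 0
    rw [hP3 g x hx, h3, map_zero]
  · rw [eq_bot_iff]
    rintro x ⟨hx, -, hx'⟩
    rw [Submodule.mem_bot]
    have h3 : P x = 0 := hx'
    rwa [hP1 x hx] at h3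
  · apply le_antisymm (sup_le hW inf_le_left)
    intro u hu
    refine Submodule.mem_sup.2 ⟨P u, hP2 u hu, u - P u, ⟨?_, ?_⟩, by abel⟩
    · exact Submodule.sub_mem _ hu (hW (hP2 u hu))
    · change P (u - P u) = 0
      rw [map_sub, hP1 _ (hP2 u hu), sub_self]

end Maschke

variable {k : Type u} [Field k] {𝒱 : VarClass k} {ops : CycleOps 𝒱}
  {W : WeilCohomology.{u, 0} ops} {X Y Z : 𝒱.Obj} {Γ : Type w} [Group Γ]
  (G : GaloisAction W Γ)

/-- The determinant of a linearly independent family does not vanish. -/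
lemma wedge_ne_zero {n : ℕ} {e : Fin (n + 1) → W.H Y} (he : LinearIndependent W.K e) :
    wedge W n e ≠ 0 := by
  classical
  have hli := he.linearIndepOn_id
  let b := Basis.extend hli
  have : Fintype (hli.extend (Set.subset_univ (Set.range e))) := FiniteDimensional.fintypeBasisIndex b
  let c : Fin (n + 1) → hli.extend (Set.subset_univ (Set.range e)) := fun j =>
    ⟨e j, hli.subset_extend _ ⟨j, rfl⟩⟩
  have hbc : ∀ j, b (c j) = e j := fun j => Basis.extend_apply_self hli (c j)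
  have hc : Function.Injective c := fun i j h => he.injective (congrArg Subtype.val h)
  have htens : ∀ σ : Equiv.Perm (Fin (n + 1)), tens W n (e ∘ σ) = wb b n (c ∘ σ) := by
    intro σ
    rw [tens_eq, wb_eq]
    congr 2
    funext i
    rw [Function.comp_apply, Function.comp_apply, hbc]
  intro h0
  have h1 := congrArg (fun z => (wb b n).repr z c) h0
  simp only [map_zero, Finsupp.zero_apply] at h1
  rw [wedge, map_sum, Finsupp.finsetSum_apply, Finset.sum_eq_single 1] at h1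
  · rw [htens, map_smul, Equiv.Perm.sign_one, Finsupp.smul_apply] at h1
    have h2 : c ∘ ⇑(1 : Equiv.Perm (Fin (n + 1))) = c := rfl
    rw [h2, Basis.repr_self, Finsupp.single_eq_same] at h1
    simp at h1
  · intro σ _ hσ
    rw [htens, map_smul, Finsupp.smul_apply, Basis.repr_self, Finsupp.single_eq_of_ne, smul_zero]
    intro h
    apply hσ
    ext i
    have h2 := congrFun h i
    exact congrArg Fin.val (hc h2).symm
  · intro h; exact absurd (Finset.mem_univ _) h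

/-- The element `g` acts on the powers of `Y` up to `Y ^ (n + 1)` compatibly with the
projections. -/
def Good (Y : 𝒱.Obj) (n : ℕ) (g : Γ) : Prop :=
  g ∈ (G.ρ Y).dom ∧ g ∈ (G.ρ (pw Y n)).dom ∧
    ∀ i, (G.ρ (pw Y n)).Commutes (G.ρ Y) (W.map (prj Y n i)) g

variable {G}

/-- The action on the external products. -/
lemma act_tens {n : ℕ} {g : Γ} (h : Good G Y n g) (x : Fin (n + 1) → W.H Y) :
    (G.ρ (pw Y n)).act g (tens W n x) = tens W n fun j => (G.ρ Y).act g (x j) := by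
  rw [tens_eq, tens_eq, map_list_prod, List.map_ofFn]
  congr 2
  funext i
  rw [Function.comp_apply]
  exact (h.2.2 i h.2.1 h.1 (x i)).symm

/-- The action on the determinants. -/
lemma act_wedge {n : ℕ} {g : Γ} (h : Good G Y n g) (x : Fin (n + 1) → W.H Y) :
    (G.ρ (pw Y n)).act g (wedge W n x) = wedge W n fun j => (G.ρ Y).act g (x j) := by
  rw [wedge, wedge, map_sum]
  refine Finset.sum_congr rfl fun σ _ => ?_
  rw [map_smul, act_tens h]
  rfl

/-- The alternating form which is given by a class. -/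
noncomputable def frm (W : WeilCohomology.{u, 0} ops) (Y : 𝒱.Obj) (n : ℕ) (u : W.H (pw Y n)) :
    W.H Y [⋀^Fin (n + 1)]→ₗ[W.K] W.K :=
  (W.tr (pw Y n) ∘ₗ LinearMap.mulRight W.K u).compAlternatingMap (wedgeA W Y n)

lemma frm_apply (n : ℕ) (u : W.H (pw Y n)) (y : Fin (n + 1) → W.H Y) :
    frm W Y n u y = W.tr (pw Y n) (wedge W n y * u) := by
  rw [frm, LinearMap.compAlternatingMap_apply, wedgeA_apply]
  rfl

/-- **The criterion.** A stable subspace has a stable complement if its determinant is not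
orthogonal to a class `u` which is multiplied by scalars by a subgroup of finite index. -/
theorem complement {n : ℕ} {U V : Submodule W.K (W.H Y)} (hU : ActStable (G.ρ Y) U) (hVU : V ≤ U)
    (hV : ActStable (G.ρ Y) V) (e : Basis (Fin (n + 1)) W.K V) {u : W.H (pw Y n)}
    (hu : W.tr (pw Y n) (wedge W n (fun j => (e j : W.H Y)) * u) ≠ 0)
    (Δ : Subgroup Γ) (hΔ : Δ.FiniteIndex)
    (hΔu : ∀ g ∈ Δ, g ∈ (G.ρ (pw Y n)).dom → ∃ a : W.K, (G.ρ (pw Y n)).act g u = a • u) :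
    ∃ V' ≤ U, ActStable (G.ρ Y) V' ∧ V ⊓ V' = ⊥ ∧ V ⊔ V' = U := by
  obtain ⟨Δ', hΔ', hgood⟩ := exists_good G Y n
  have hfi := (G.isGalois Y).finiteIndex
  set F := frm W Y n u with hF
  have heF : F (fun j => (e j : W.H Y)) ≠ 0 := by rw [hF, frm_apply]; exact hu
  obtain ⟨h1, h2⟩ := cpl_compl e hVU heF
  have hu0 : u ≠ 0 := by
    rintro rfl
    rw [mul_zero, map_zero] at hu
    exact hu rfl
  have hVs := (stable_iff G).1 hV
  obtain ⟨C', hC', hCs', h3, h4⟩ := maschke_one (ρ := rep G Y) ((Δ ⊓ Δ').subgroupOf (G.ρ Y).dom)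
    ((stable_iff G).1 hU) hVU hVs (C := cpl U V F) (by
      rw [stab_op]
      rintro ⟨g, hgD⟩ hg x hx
      rw [Subgroup.mem_subgroupOf] at hg
      have hgd := hgood g hg.2
      obtain ⟨a, ha⟩ := hΔu g hg.1 hgd.2.1
      have ha0 : a ≠ 0 := by
        rintro rfl
        rw [zero_smul] at ha
        exact hu0 ((map_eq_zero_iff _ ((G.ρ (pw Y n)).act g).injective).1 ha)
      refine cpl_stable (f := rep G Y ⟨g, hgD⟩) (c := a⁻¹ * (G.χ g : W.K) ^ (pw Y n).dim) ?_ ?_ ?_ hx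
      · intro x hx
        exact hU g hgD x hx
      · intro y hy
        refine ⟨rep G Y ⟨g, hgD⟩⁻¹ y, ?_, ?_⟩
        · exact hV _ ((⟨g, hgD⟩ : (G.ρ Y).dom)⁻¹).2 y hy
        · have h5 : (rep G Y ⟨g, hgD⟩ * rep G Y ⟨g, hgD⟩⁻¹) y = y := by
            rw [← map_mul, mul_inv_cancel, map_one]; rfl
          exact h5
      · intro y
        rw [hF, frm_apply, frm_apply]
        have h5 : (fun j => rep G Y ⟨g, hgD⟩ (y j)) = fun j => (G.ρ Y).act g (y j) := rfl
        have h6 := (G.isGalois (pw Y n)).tr_act g hgd.2.1 (wedge W n y * u)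
        rw [map_mul ((G.ρ (pw Y n)).act g), act_wedge hgd, ha, mul_smul_comm, map_smul,
          smul_eq_mul] at h6
        rw [h5, mul_assoc, ← h6, ← mul_assoc, inv_mul_cancel₀ ha0, one_mul]) h1 h2
  exact ⟨C', hC', (stable_iff G).2 hCs', h3, h4⟩

end Pool.Agent.Q57.SS
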