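import Pool.Agent.Q60.TD.Defs
import Pool.Agent.H914R2.DDefs

/-!
# Varieties over the base field and Galois-stable lines: definitions
-/

open CategoryTheory AlgebraicGeometry

universe u v w

namespace Pool.Agent.Q57.SS

open Pool.Agent.H914 Pool.Agent.H914.VarClass Pool.Agent.H914.VarClass.Obj
  Pool.Agent.H914.WeilCohomology Pool.Agent.Q55

variable {k : Type u} [Field k] {𝒱 : VarClass k} {ops : CycleOps 𝒱}
  {W : WeilCohomology.{u, v} ops} {Γ : Type w} [Group Γ]

/-- `X` is defined over the base field: the whole group `Γ` acts on the cohomology of the products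
of copies of `X`, and the pull-backs under the projections of such products commute with the
action. -/
def DefinedOverBase (G : GaloisAction W Γ) (X : 𝒱.Obj) : Prop :=
  ∀ Y, IsProductOf {X} Y → (G.ρ Y).dom = ⊤ ∧ ∀ Z, IsProductOf {X} Z → ∀ g,
    (G.ρ (Y.prod Z)).Commutes (G.ρ Y) (W.map (fst Y Z)) g ∧
    (G.ρ (Y.prod Z)).Commutes (G.ρ Z) (W.map (snd Y Z)) g

/-- Every line in the cohomology of a product of copies of `X` which is stable under the whole
group `Γ` is spanned by a Tate class. -/
def LinesAreTate (G : GaloisAction W Γ) (X : 𝒱.Obj) : Prop :=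
  ∀ Y, IsProductOf {X} Y → ∀ i, ∀ c ∈ W.gr Y i, c ≠ 0 →
    (∀ g, ∃ a : W.K, (G.ρ Y).act g c = a • c) → ∃ j, IsTate G Y j c

/-- The intersection pairing is nondegenerate on the Tate classes on `Y`. -/
def TateNondegenerate (G : GaloisAction W Γ) (Y : 𝒱.Obj) : Prop :=
  ∀ j c, IsTate G Y j c → c ≠ 0 → ∃ j' u, IsTate G Y j' u ∧ W.tr Y (c * u) ≠ 0

/-- The linear combinations of Tate classes on `Y` which are orthogonal to all Tate classes. -/
def tateNull (G : GaloisAction W Γ) (Y : 𝒱.Obj) : Set (W.H Y) :=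
  {c | c ∈ Submodule.span W.K {c | ∃ j, IsTate G Y j c} ∧
    ∀ j u, IsTate G Y j u → W.tr Y (c * u) = 0}

/-- The rank of the intersection pairing on the space spanned by the Tate classes on `Y`. -/
noncomputable def pairingRank (G : GaloisAction W Γ) (Y : 𝒱.Obj) : ℕ :=
  tateDim G Y - Pool.Agent.Y133.Half.dimOf W (tateNull G Y)

end Pool.Agent.Q57.SS
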