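import Pool.Agent.Q57.TM.Lef
import Pool.Agent.H914R2.KDefs2
import Pool.Agent.H447R3.NumB

/-!
# The Tate conjecture for the square implies the Lefschetz standard conjecture
-/

open CategoryTheory AlgebraicGeometry

universe u w

namespace Pool.Agent.Q57.SS

open Module
open Pool.Agent.H914 Pool.Agent.H914.VarClass Pool.Agent.H914.VarClass.Obj
  Pool.Agent.H914.WeilCohomology
open Pool.Agent.Q55 (GaloisAction IsTate tatePred Virtually TateConj)
open Pool.Agent.Y133.Half
open Pool.Agent.Q50.BL (corrL_bijective)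

variable {k : Type u} [Field k] {𝒱 : VarClass k} {ops : CycleOps 𝒱}
  {W : WeilCohomology.{u, 0} ops} {X : 𝒱.Obj} {Γ : Type w} [Group Γ]

/-- The class of the Lambda operator is a Tate class. -/
lemma lam_tate' (G : GaloisAction W Γ) {D : X.Cycles} (hD : X.IsCyc 1 D)
    (hHL : HardLefschetz W X D) {c : W.H (X.prod X)} (hc : c ∈ W.gr (X.prod X) (2 * (X.dim - 1)))
    (hLam : IsLam (W.gr X) X.dim (LinearMap.mulLeft W.K (W.cl X D)) (W.corr c)) :
    IsTate G (X.prod X) (X.dim - 1) c := by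
  have hL : IsHom (W.gr X) 2 (LinearMap.mulLeft W.K (W.cl X D)) := by
    simpa using rop_opAlg.hom (rop_mulLeft (W := W) hD)
  obtain ⟨Δ₁, hΔ₁, h1⟩ := G.map_act (fst X X)
  obtain ⟨Δ₂, hΔ₂, h2⟩ := Pool.Agent.Q55.push_act G (snd X X)
  obtain ⟨Δ₃, hΔ₃, h3⟩ := G.cl_act X 1 D hD
  have := (G.isGalois X).finiteIndex
  refine ⟨hc, Δ₁ ⊓ Δ₂ ⊓ Δ₃ ⊓ (G.ρ X).dom, inferInstance, fun g hg hXX => ?_⟩
  obtain ⟨⟨⟨hg1, hg2⟩, hg3⟩, hgX⟩ := hg
  have h1' := h1 g hg1 hXX hgX
  have h2' := h2 g hg2 hXX hgX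
  have h3' := h3 g hg3 hgX
  set A := (G.ρ X).act g with hA
  set B := (G.ρ (X.prod X)).act g with hB
  set χ : W.K := (G.χ g : W.K) with hχ
  have hχ0 : χ ≠ 0 := Units.ne_zero _
  set L := LinearMap.mulLeft W.K (W.cl X D) with hLdef
  set Λ := W.corr c with hΛ
  have hAL : ∀ a, A (L a) = χ • L (A a) := by
    intro a
    rw [hLdef, LinearMap.mulLeft_apply, LinearMap.mulLeft_apply, map_mul, h3', pow_one,
      smul_mul_assoc]
  have hALj : ∀ j a, A ((L ^ j) a) = χ ^ j • (L ^ j) (A a) := by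
    intro j
    induction j with
    | zero => intro a; simp
    | succ j ih =>
      intro a
      rw [pow_succ', Module.End.mul_apply, hAL, ih, map_smul, smul_smul, Module.End.mul_apply,
        pow_succ']
  have hAΛ : ∀ a, Λ (A a) = χ • A (Λ a) := by
    intro a
    refine lef_induction' (W.isInternal X) hL W_hbd hHL
      (p := fun a => Λ (A a) = χ • A (Λ a)) ?_ ?_ a
    · intro a b ha hb
      rw [map_add, map_add, map_add, map_add, smul_add, ha, hb]
    · intro i hi a ha hp j
      have e1 : A a ∈ W.gr X i := (G.isGalois X).gr_mem g hgX i a ha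
      have e2 : (L ^ (X.dim - i + 1)) (A a) = 0 := by
        have e3 := hALj (X.dim - i + 1) a
        rw [hp, map_zero] at e3
        exact (smul_eq_zero.1 e3.symm).resolve_left (pow_ne_zero _ hχ0)
      obtain ⟨k1, k2⟩ := hLam i hi a ha hp
      obtain ⟨k3, k4⟩ := hLam i hi (A a) e1 e2
      rcases Nat.eq_zero_or_pos j with hj | hj
      · subst hj
        rw [pow_zero, Module.End.one_apply, k3, k1, map_zero, smul_zero]
      · obtain ⟨m, rfl⟩ : ∃ m, j = m + 1 := ⟨j - 1, by omega⟩
        by_cases hm : m < X.dim - i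
        · rw [hALj, map_smul, k4 m hm, k2 m hm, hALj, smul_smul, pow_succ']
        · have e4 : (L ^ (m + 1)) a = 0 := L_pow_gt hp (by omega)
          rw [e4, map_zero, map_zero, map_zero, smul_zero]
  have hn : ∀ a, χ ^ X.dim • A (Λ a) = χ ^ (X.dim - 1) • Λ (A a) := by
    intro a
    by_cases hn : X.dim = 0
    · have e1 : Λ = 0 := by
        apply LinearMap.ext
        intro a
        refine lef_induction' (W.isInternal X) hL W_hbd hHL
          (p := fun a => Λ a = (0 : W.H X →ₗ[W.K] W.H X) a) ?_ ?_ a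
        · intro a b ha hb
          rw [map_add, map_add, ha, hb]
        · intro i hi a ha hp j
          rw [LinearMap.zero_apply]
          rcases Nat.eq_zero_or_pos j with hj | hj
          · subst hj
            exact (hLam i hi a ha hp).1
          · rw [L_pow_gt hp (by omega), map_zero]
      rw [e1, LinearMap.zero_apply, LinearMap.zero_apply, map_zero, smul_zero, smul_zero]
    · rw [hAΛ, smul_smul, ← pow_succ, show X.dim - 1 + 1 = X.dim by omega]
  have key : W.corr (B c) = W.corr (χ ^ (X.dim - 1) • c) := by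
    apply LinearMap.ext
    intro b
    obtain ⟨a, rfl⟩ := A.surjective b
    have e1 : W.corr (B c) (A a) = W.push (snd X X) (B (c * W.map (fst X X) a)) := by
      change W.push (snd X X) (B c * W.map (fst X X) (A a)) = _
      rw [h1', map_mul B]
    have e2 := h2' (c * W.map (fst X X) a)
    have e3 : W.push (snd X X) (c * W.map (fst X X) a) = Λ a := rfl
    rw [e3, ← e1, dim_prod, pow_add, ← smul_smul] at e2
    have e4 := smul_right_injective _ (pow_ne_zero X.dim hχ0) e2
    rw [← e4, hn a, corr_smul, LinearMap.smul_apply]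
  exact (corrL_bijective W X X).1 key

/-- **The Tate conjecture for `X × X` implies the Lefschetz standard conjecture for `X`.** -/
theorem lefschetzB_of_tate (G : GaloisAction W Γ) {D : X.Cycles} (hD : X.IsCyc 1 D)
    (hHL : HardLefschetz W X D) (hT : TateConj G (X.prod X)) : LefschetzB W X D := by
  have hL : IsHom (W.gr X) 2 (LinearMap.mulLeft W.K (W.cl X D)) := by
    simpa using rop_opAlg.hom (rop_mulLeft (W := W) hD)
  obtain ⟨Λ, h1, h2⟩ := exists_isLam (W.isInternal X) hL W_hbd hHL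
  by_cases h0 : X.dim = 0
  · rw [lefschetzB_iff_rop]
    refine ⟨0, rop_opAlg.zero _, ?_⟩
    intro i hi a _ _
    refine ⟨rfl, fun j hj => ?_⟩
    omega
  obtain ⟨τ, rfl⟩ := Pool.Agent.H447.exists_corr Λ
  have hτ : τ ∈ W.gr (X.prod X) (2 * (X.dim - 1)) := by
    apply Pool.Agent.H447.mem_gr_of_isHom
    rwa [show (2 * (((X.dim - 1 : ℕ) : ℤ) - X.dim)) = -2 by omega]
  have h3 := hT _ _ (lam_tate' G hD hHL hτ h2)
  have h4 := (lefschetzB_tfae (W := W) hD hHL).out 0 1
  rw [show (((X.dim - 1 : ℕ) : ℕ) : ℤ) = (X.dim : ℤ) - 1 by omega] at h3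
  exact h4.2 ⟨τ, h3, h2⟩

end Pool.Agent.Q57.SS
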