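import Pool.Agent.Q57.SS.Law
import Pool.Agent.Q57.SS.Lam
import Pool.Agent.Q60.TD.Half

/-!
# The Tate conjecture for one power implies semisimplicity, and the half law
-/

open CategoryTheory AlgebraicGeometry

set_option linter.unusedSectionVars false

universe u v w

namespace Pool.Agent.Q57.SS

open Module
open Pool.Agent.H914 Pool.Agent.H914.VarClass Pool.Agent.H914.VarClass.Obj
  Pool.Agent.H914.WeilCohomology
open Pool.Agent.Y133.Half Pool.Agent.Q55 Pool.Agent.Q60.TD
open Pool.Agent.H281R3.HT Pool.Agent.W536.RR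

variable {k : Type u} [Field k] {𝒱 : VarClass k} {ops : CycleOps 𝒱}
  {W : WeilCohomology.{u, 0} ops} {X Y Z : 𝒱.Obj} {Γ : Type w} [Group Γ]
  {G : GaloisAction W Γ}

/-- The powers of a power, with the exponent. -/
lemma pw_pw_iso (X : 𝒱.Obj) (n : ℕ) :
    ∀ m, Nonempty (pw (pw X n) m ≅ pw X ((n + 1) * (m + 1) - 1))
  | 0 => by
    rw [show (n + 1) * (0 + 1) - 1 = n by omega]
    exact ⟨Iso.refl _⟩
  | m + 1 => by
    obtain ⟨θ⟩ := pw_pw_iso X n m
    have h1 : (n + 1) * (m + 1 + 1) - 1 = ((n + 1) * (m + 1) - 1) + n + 1 := by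
      have h2 : (n + 1) * (m + 1 + 1) = (n + 1) * (m + 1) + n + 1 := by ring
      have h3 : 0 < (n + 1) * (m + 1) := by positivity
      omega
    rw [h1]
    exact ⟨prodCongr θ (Iso.refl _) ≪≫ pwAdd X _ n⟩

/-- The pairing on Tate classes is nondegenerate if they are algebraic and homological and numerical
equivalence agree. -/
lemma num_tate (hT : TateConj G Y) (hD : HomEqNum W Y) : (tatePred G).sys.Num Y = ⊥ := by
  have h1 : (tatePred G).sys.C Y = algSpan W Y := (ClassPred.sp_eq_iff (Q := tatePred G) Y).2 hT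
  have h2 := (homEqNum_iff Y).1 hD
  rw [eq_bot_iff]
  intro c hc
  rw [← h2]
  obtain ⟨h3, h4⟩ := hc
  rw [h1] at h3
  refine ⟨h3, fun d hd => h4 d ?_⟩
  rw [h1]
  exact hd

/-- The bound. -/
lemma bound_le {b M : ℕ} : M * b ^ M ≤ (2 * b) ^ M := by
  rw [mul_pow]
  exact Nat.mul_le_mul_right _ (Nat.lt_two_pow_self).le

/-- **The Tate conjecture for one power of `X` implies that the representations on the cohomology of
a smaller power are semisimple.** -/
theorem semisimple_of_tate (hX : DefinedOverBase G X) (hL : LinesAreTate G X)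
    [Nontrivial (W.H X)] {D : X.Cycles} (hD : X.IsCyc 1 D) (hHL : HardLefschetz W X D)
    (hH : ∀ n, HodgeType W (pw X n) (pwDiv ops D n)) {M N : ℕ} (hM : 0 < M)
    (hN : (2 * finrank W.K (W.H X)) ^ M ≤ N + 1) (hN2 : 2 ≤ N + 1)
    (h : TateConj G (pw X N)) (i : ℕ) : SemisimpleAt G (pw X (M - 1)) i := by
  have hsq : TateConj G (X.prod X) := by
    have h1 : TateConj G (pw X 1) := conj_le (by omega) h
    exact h1
  have hB : LefschetzB W X D := lefschetzB_of_tate G hD hHL hsq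
  have hBCD := ((hodge_case hD hHL hH).out 0 1).1 hB
  refine semisimple_of_pairing hX hL (isProd_pw (isProd_self X) (M - 1)) fun m hm => ?_
  obtain ⟨θ⟩ := pw_pw_iso X (M - 1) m
  rw [show M - 1 + 1 = M by omega] at θ
  have h2 : m + 1 ≤ finrank W.K (W.H X) ^ M := by
    have h3 : finrank W.K (W.gr (pw X (M - 1)) i) ≤ finrank W.K (W.H (pw X (M - 1))) :=
      Submodule.finrank_le _
    rw [finrank_pw, show M - 1 + 1 = M by omega] at h3
    omega
  have h3 : M * (m + 1) ≤ N + 1 :=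
    (Nat.mul_le_mul_left M h2).trans (bound_le.trans hN)
  exact tateNondeg_of_num (num_iso θ (num_tate (conj_le (by omega) h) (hBCD _).1))

/-- The Tate conjecture for one power implies the Tate conjecture and semisimplicity for all
powers. -/
theorem moonen [TopologicalSpace Γ] [TopologicalSpace W.K] (hA : IsArithmetic G X)
    (hX : DefinedOverBase G X) (hL : LinesAreTate G X)
    {D : X.Cycles} (hD : X.IsCyc 1 D) (hHL : HardLefschetz W X D)
    (hH : ∀ n, HodgeType W (pw X n) (pwDiv ops D n)) {N : ℕ}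
    (hN : (2 * finrank W.K (W.H X)) ^ (2 * finrank W.K (W.H X)) ^ (2 * finrank W.K (W.H X)) ^ 3 ≤
      N + 1) (h : TateConj G (pw X N)) (m : ℕ) :
    (∀ i, SemisimpleAt G (pw X m) i) ∧ TateConj G (pw X m) := by
  by_cases hX' : Nontrivial (W.H X)
  swap
  · apply strong_zero
    by_contra h2
    exact hX' (Module.nontrivial_of_finrank_pos (R := W.K) (Nat.pos_of_ne_zero h2))
  have hb : 0 < finrank W.K (W.H X) := Module.finrank_pos
  set b := finrank W.K (W.H X) with hbdef
  set M := (2 * b) ^ (2 * b) ^ 3 with hM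
  have hM0 : 0 < M := pow_pos (by omega) _
  have h2b : 2 ≤ 2 * b := by omega
  have hM1 : M ≤ (2 * b) ^ M := (Nat.lt_pow_self (by omega)).le
  have h2N : 2 ≤ N + 1 := by
    have h1 : (2 * b) ^ 1 ≤ (2 * b) ^ M := Nat.pow_le_pow_right (by omega) hM0
    rw [pow_one] at h1
    omega
  have e1 : (2 * finrank W.K (W.H X)) ^ (2 * finrank W.K (W.H X)) ^ 3 ≤ M - 1 + 1 := by
    rw [Nat.sub_add_cancel hM0]
  refine strong_main hA hD hHL hH (N := M - 1) e1 ⟨fun j => ?_, conj_le (by omega) h⟩ m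
  exact semisimple_of_tate hX hL hD hHL hH hM0 hN h2N h (2 * j)

/-- **The half law without the assumption of semisimplicity.** -/
theorem half_law [TopologicalSpace Γ] [TopologicalSpace W.K] (hA : IsArithmetic G X)
    (hX : DefinedOverBase G X) (hL : LinesAreTate G X)
    {D : X.Cycles} (hD : X.IsCyc 1 D) (hHL : HardLefschetz W X D)
    (hH : ∀ n, HodgeType W (pw X n) (pwDiv ops D n)) {N : ℕ}
    (hN : (2 * finrank W.K (W.H X)) ^ (2 * finrank W.K (W.H X)) ^ (2 * finrank W.K (W.H X)) ^ 3 =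
      N) {ε : ℝ} (hε : 0 < ε) {n : ℕ}
    (hn : (2 * (finrank W.K (W.H X) : ℝ)) ^ (3 * N) / ε ^ 2 ≤ n + 1)
    (h : (1 / 2 + ε) * Pool.Agent.Q55.tateDim G (pw X n) < cycRank ops (pw X n)) (m : ℕ) :
    (∀ i, SemisimpleAt G (pw X m) i) ∧ TateConj G (pw X m) := by
  by_cases hX' : Nontrivial (W.H X)
  swap
  · apply strong_zero
    by_contra h2
    exact hX' (Module.nontrivial_of_finrank_pos (R := W.K) (Nat.pos_of_ne_zero h2))
  have hb : 0 < finrank W.K (W.H X) := Module.finrank_pos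
  obtain ⟨l, hl, hl1⟩ := exists_tr_alg hD hHL
  have h82 : 8 ≤ N ∧ N % 2 = 0 := by
    have h1 : 3 ≤ (2 * finrank W.K (W.H X)) ^ (2 * finrank W.K (W.H X)) ^ 3 :=
      le_trans (by norm_num) (bound_ge hb).1
    rw [← hN]
    constructor
    · calc 8 = 2 ^ 3 := by norm_num
        _ ≤ (2 * finrank W.K (W.H X)) ^ 3 := Nat.pow_le_pow_left (by omega) 3
        _ ≤ _ := Nat.pow_le_pow_right (by omega) h1
    · obtain ⟨m, hm⟩ : ∃ m, (2 * finrank W.K (W.H X)) ^ (2 * finrank W.K (W.H X)) ^ 3 = m + 1 :=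
        ⟨(2 * finrank W.K (W.H X)) ^ (2 * finrank W.K (W.H X)) ^ 3 - 1, by omega⟩
      rw [hm, pow_succ, ← mul_assoc, mul_comm _ 2, mul_assoc]
      exact Nat.mul_mod_right 2 _
  obtain ⟨h8, h2⟩ := h82
  by_contra hcon
  have hpos : ∀ n, 0 < (algSys W).al X n := by
    intro n
    obtain ⟨m, hm, hm1⟩ := (algSys W).exists_lam hl hl1 n
    refine (algSys W).a_pos (Sys.xp_mem_C (algSys W) hm hm) ?_
    rw [tr_xp, hm1, mul_one]
  have hbot : ∀ m, (algSys W).C (pw X m) ≠ ⊥ := by
    intro m hm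
    obtain ⟨y, hy, hy1⟩ := (algSys W).exists_lam hl hl1 m
    rw [hm, Submodule.mem_bot] at hy
    exact ne_zero_of_tr hy1 hy
  have hlt : ∀ m, N ≤ m + 1 → (algSys W).C (pw X m) < (tatePred G).sys.C (pw X m) := by
    intro m' hm'
    refine lt_of_le_of_ne ClassPred.alg_le fun heq => hcon ?_
    have h3 : TateConj G (pw X m') := (ClassPred.sp_eq_iff (Q := tatePred G) (pw X m')).1 heq.symm
    exact moonen hA hX hL hD hHL hH (N := m') (by rw [hN]; exact hm') h3 m
  have key := Pool.Agent.Q60.HD.uniform_half (S := algSys W) (T := (tatePred G).sys)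
    (fun Z => ClassPred.alg_le) hb hpos hbot h8 h2 hlt hε hn
  rw [numDim_eq_cycRank] at key
  exact absurd key (not_le.2 h)

end Pool.Agent.Q57.SS
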