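import Pool.Agent.Q57.SS.Semi
import Pool.Agent.Y133.Half.Main2
import Pool.Agent.Y121.AH.ZeroOne

/-!
# The zero-one law for semisimplicity
-/

open CategoryTheory AlgebraicGeometry Filter Topology

universe u v w

namespace Pool.Agent.Q57.SS

open Module
open Pool.Agent.H914 Pool.Agent.H914.VarClass Pool.Agent.H914.VarClass.Obj
  Pool.Agent.H914.WeilCohomology Pool.Agent.Q55 Pool.Agent.Q55.Det Pool.Agent.Y133.Half
  Pool.Agent.Q60.TD

variable {k : Type u} [Field k] {𝒱 : VarClass k} {ops : CycleOps 𝒱}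
  {W : WeilCohomology.{u, 0} ops} {X Y Z : 𝒱.Obj} {Γ : Type w} [Group Γ]
  {G : GaloisAction W Γ}

lemma tateDim_eq (Y : 𝒱.Obj) : Pool.Agent.Q55.tateDim G Y = finrank W.K ((tatePred G).sys.C Y) :=
  rfl

lemma tateNull_eq (Y : 𝒱.Obj) : tateNull G Y = ((tatePred G).sys.Num Y : Set (W.H Y)) := by
  ext c
  constructor
  · rintro ⟨h1, h2⟩
    refine ⟨h1, fun d hd => ?_⟩
    have h3 : d ∈ Submodule.span W.K {c : W.H Y | ∃ j, IsTate G Y j c} := hd
    induction h3 using Submodule.span_induction with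
    | mem x hx =>
      obtain ⟨j', hx⟩ := hx
      exact h2 j' x hx
    | zero => rw [mul_zero, map_zero]
    | add a b ha hb iha ihb => rw [mul_add, map_add, iha ha, ihb hb, add_zero]
    | smul r a ha ih => rw [mul_smul_comm, map_smul, ih ha, smul_zero]
  · rintro ⟨h1, h2⟩
    exact ⟨h1, fun j u hu => h2 u (ClassPred.sp_of (Q := tatePred G) hu)⟩

lemma pairingRank_eq (Y : 𝒱.Obj) : pairingRank G Y = (tatePred G).sys.a Y := by
  have h1 := (tatePred G).sys.a_add_num Y
  have h2 : Pool.Agent.Y133.Half.dimOf W (tateNull G Y) =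
      finrank W.K ((tatePred G).sys.Num Y) := by
    rw [Pool.Agent.Y133.Half.dimOf, Set.finrank, tateNull_eq, Submodule.span_eq]
  rw [pairingRank, h2, tateDim_eq]
  omega

lemma num_iso {S : Sys W} (θ : Z ≅ Y) (h : S.Num Y = ⊥) : S.Num Z = ⊥ := by
  have h1 := S.a_add_num Z
  have h2 := S.a_add_num Y
  rw [h, finrank_bot, add_zero] at h2
  rw [S.a_iso θ, S.finrank_C_iso θ] at h1
  exact Submodule.finrank_eq_zero.1 (by omega)

/-- The powers of a power. -/
lemma pw_pw' (X : 𝒱.Obj) (n : ℕ) : ∀ m, ∃ r, Nonempty (pw (pw X n) m ≅ pw X r)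
  | 0 => ⟨n, ⟨Iso.refl _⟩⟩
  | m + 1 => by
    obtain ⟨r, ⟨θ⟩⟩ := pw_pw' X n m
    exact ⟨r + n + 1, ⟨prodCongr θ (Iso.refl _) ≪≫ pwAdd X r n⟩⟩

lemma num_of_nondeg (h : TateNondegenerate G Y) : (tatePred G).sys.Num Y = ⊥ := by
  rw [eq_bot_iff]
  intro c hc
  rw [Submodule.mem_bot]
  have h1 : c ∈ (tatePred G).sp Y := hc.1
  have hsum : ∑ i ∈ Finset.range (2 * Y.dim + 1), H914.proj (W.isInternal Y) i c = c := by
    have h2 := LinearMap.congr_fun (sum_proj (W.isInternal Y) (N := 2 * Y.dim + 1)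
      fun i hi => W.gr_eq_bot Y i (by omega)) c
    rw [LinearMap.sum_apply] at h2
    exact h2
  rw [← hsum]
  refine Finset.sum_eq_zero fun m _ => ?_
  by_contra h0
  rcases Nat.even_or_odd' m with ⟨j, rfl | rfl⟩
  · obtain ⟨j', u, hu, hu0⟩ := h j _ (ClassPred.sp_proj h1 j) h0
    have hdim : 2 * j + 2 * j' = 2 * Y.dim := by
      by_contra hne
      exact hu0 (W.tr_eq_zero (W.mul_mem (proj_mem (W.isInternal Y) (2 * j) c) hu.1) hne)
    apply hu0
    have h3 := hc.2 u (ClassPred.sp_of (Q := tatePred G) hu)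
    rw [← hsum, Finset.sum_mul, map_sum, Finset.sum_eq_single (2 * j)] at h3
    · exact h3
    · intro m _ hm
      exact W.tr_eq_zero (W.mul_mem (proj_mem (W.isInternal Y) m c) hu.1) (by omega)
    · intro h4
      rw [Finset.mem_range, not_lt] at h4
      exfalso
      apply h0
      have h5 := proj_mem (W.isInternal Y) (2 * j) c
      rw [W.gr_eq_bot Y _ (by omega), Submodule.mem_bot] at h5
      exact h5
  · apply h0
    refine ClassPred.sp_ind (Q := tatePred G)
      (q := fun c => H914.proj (W.isInternal Y) (2 * j + 1) c = 0) ?_ ?_ ?_ h1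
    · intro i x hx
      exact proj_ne _ hx.1 (by omega)
    · rw [map_zero]
    · intro a b ha hb
      rw [map_add, ha, hb, add_zero]

/-- If the pairing on the Tate classes on the powers of `X` is nondegenerate, all representations
on the cohomology of the powers are semisimple. -/
theorem semisimple_pw (hX : DefinedOverBase G X) (hL : LinesAreTate G X)
    (h : ∀ n, (tatePred G).sys.Num (pw X n) = ⊥) (n i : ℕ) : SemisimpleAt G (pw X n) i := by
  refine semisimple_of_pairing hX hL (isProd_pw (isProd_self X) n) fun m _ => ?_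
  obtain ⟨r, ⟨θ⟩⟩ := pw_pw' X n m
  exact tateNondeg_of_num (num_iso θ (h r))

/-- If the representations are semisimple, the pairing on the Tate classes is nondegenerate. -/
theorem nondeg_of_semisimple (h : ∀ i, SemisimpleAt G Y i) : TateNondegenerate G Y := by
  intro j c hc h0
  have hj : j ≤ Y.dim := by
    by_contra hcon
    have h1 := hc.1
    rw [W.gr_eq_bot Y _ (by omega), Submodule.mem_bot] at h1
    exact h0 h1
  obtain ⟨x, hx, hx0⟩ := exists_tate_pair G hj hc h0 (h _)
  exact ⟨_, x, hx, hx0⟩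

lemma tateDim_pos [Nontrivial (W.H X)] (n : ℕ) : 0 < Pool.Agent.Q55.tateDim G (pw X n) := by
  rw [tateDim_eq]
  have h3 : Nontrivial (W.H (pw X n)) := by
    apply Module.nontrivial_of_finrank_pos (R := W.K)
    rw [finrank_pw]
    exact pow_pos Module.finrank_pos _
  rw [Module.finrank_pos_iff]
  exact ⟨⟨⟨1, (tatePred G).sys.one (pw X n)⟩, 0, fun h => one_ne_zero (congrArg Subtype.val h)⟩⟩

/-- **The zero-one law.** -/
theorem num_or_zero (G : GaloisAction W Γ) (X : 𝒱.Obj) :
    (∀ n, (tatePred G).sys.Num (pw X n) = ⊥) ∨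
      Tendsto (fun n => (pairingRank G (pw X n) : ℝ) / Pool.Agent.Q55.tateDim G (pw X n)) atTop
        (𝓝 0) := by
  rcases (tatePred G).sys.num_or (tatePred G).sys (fun _ => le_rfl) X with h | h
  · exact Or.inl h
  right
  rw [Metric.tendsto_atTop]
  intro ε hε
  obtain ⟨N, hN⟩ := exists_nat_gt (1 / ε)
  obtain ⟨n₀, hn₀⟩ := h (N + 1)
  refine ⟨n₀, fun n hn => ?_⟩
  have h1 := hn₀ n hn
  have h2 : (0 : ℝ) ≤ (pairingRank G (pw X n) : ℝ) / Pool.Agent.Q55.tateDim G (pw X n) := by
    positivity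
  rw [Real.dist_eq, sub_zero, abs_of_nonneg h2]
  have hNpos : (0 : ℝ) < N := lt_trans (by positivity) hN
  rcases Nat.eq_zero_or_pos (Pool.Agent.Q55.tateDim G (pw X n)) with h3 | h3
  · rw [h3, Nat.cast_zero, div_zero]
    exact hε
  have h3' : (0 : ℝ) < Pool.Agent.Q55.tateDim G (pw X n) := by exact_mod_cast h3
  rw [div_lt_iff₀ h3']
  have h4 : ((N : ℝ) + 1) * (pairingRank G (pw X n) : ℝ) ≤
      (Pool.Agent.Q55.tateDim G (pw X n) : ℝ) := by
    rw [pairingRank_eq, tateDim_eq]
    exact_mod_cast h1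
  have h5 : 1 < ε * N := by
    rw [div_lt_iff₀ hε] at hN
    linarith
  rcases Nat.eq_zero_or_pos (pairingRank G (pw X n)) with h6 | h6
  · rw [h6, Nat.cast_zero]
    positivity
  have h6' : (1 : ℝ) ≤ pairingRank G (pw X n) := by exact_mod_cast h6
  nlinarith [mul_pos hε h3']

/-- If the pairing is nondegenerate, its rank is the dimension. -/
lemma rank_of_num {Y : 𝒱.Obj} (h : (tatePred G).sys.Num Y = ⊥) :
    pairingRank G Y = Pool.Agent.Q55.tateDim G Y := by
  have h1 := (tatePred G).sys.a_add_num Y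
  rw [h, finrank_bot, add_zero] at h1
  rw [pairingRank_eq, tateDim_eq, h1]

end Pool.Agent.Q57.SS
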