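import Pool.Agent.Q57.SS.Act

/-!
# Semisimplicity from the pairing on Tate classes
-/

open CategoryTheory AlgebraicGeometry

universe u v w

namespace Pool.Agent.Q57.SS

open Module
open Pool.Agent.H914 Pool.Agent.H914.VarClass Pool.Agent.H914.VarClass.Obj
  Pool.Agent.H914.WeilCohomology Pool.Agent.Q55 Pool.Agent.Q55.Det Pool.Agent.Y133.Half
  Pool.Agent.Q60.TD

variable {k : Type u} [Field k] {𝒱 : VarClass k} {ops : CycleOps 𝒱}
  {W : WeilCohomology.{u, 0} ops} {X Y Z : 𝒱.Obj} {Γ : Type w} [Group Γ]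
  {G : GaloisAction W Γ}

lemma isProd_pw (hY : IsProductOf {X} Y) : ∀ n, IsProductOf {X} (pw Y n)
  | 0 => hY
  | n + 1 => IsProductOf.prod (isProd_pw hY n) hY

lemma isProd_self (X : 𝒱.Obj) : IsProductOf {X} X := IsProductOf.base rfl

/-- The projections of a power commute with the whole group. -/
lemma good_of_base (hX : DefinedOverBase G X) (hY : IsProductOf {X} Y) (g : Γ) :
    ∀ n, Good G Y n g
  | 0 => by
    have h1 := (hX Y hY).1
    refine ⟨by rw [h1]; exact Subgroup.mem_top g, by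
      change g ∈ (G.ρ Y).dom
      rw [h1]; exact Subgroup.mem_top g, ?_⟩
    intro i _ _ b
    have h2 : W.map (prj Y 0 i) = AlgHom.id _ _ := by
      apply AlgHom.ext
      intro x
      exact W.map_id Y x
    change W.map (prj Y 0 i) ((G.ρ Y).act g b) = (G.ρ Y).act g (W.map (prj Y 0 i) b)
    have h3 : ∀ x : W.H Y, W.map (prj Y 0 i) x = x := fun x => W.map_id Y x
    exact (h3 _).trans (congrArg _ (h3 b).symm)
  | n + 1 => by
    obtain ⟨h1, h2, h3⟩ := good_of_base hX hY g n
    have h4 := hX (pw Y n) (isProd_pw hY n)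
    have h5 := h4.2 Y hY g
    have h6 : g ∈ (G.ρ (pw Y (n + 1))).dom := by
      rw [(hX (pw Y (n + 1)) (isProd_pw hY (n + 1))).1]
      exact Subgroup.mem_top g
    refine ⟨h1, h6, fun i => ?_⟩
    intro _ _ b
    refine Fin.lastCases ?_ (fun j => ?_) i
    · rw [prj_last]
      exact h5.2 h6 h1 b
    · rw [prj_castSucc, W.map_comp, W.map_comp, h3 j h2 h1 b]
      exact h5.1 h6 h2 _

/-- **Semisimplicity from the pairing on Tate classes.** -/
theorem semisimple_of_pairing (hX : DefinedOverBase G X) (hL : LinesAreTate G X)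
    (hY : IsProductOf {X} Y) {i : ℕ}
    (hT : ∀ m < finrank W.K (W.gr Y i), TateNondegenerate G (pw Y m)) : SemisimpleAt G Y i := by
  intro V hV hVs
  rcases Nat.eq_zero_or_pos (finrank W.K V) with h0 | h0
  · have h1 : V = ⊥ := Submodule.finrank_eq_zero.1 h0
    refine ⟨W.gr Y i, le_rfl, fun g hg c hc => (G.isGalois Y).gr_mem g hg i c hc, ?_, ?_⟩
    · rw [h1, bot_inf_eq]
    · rw [h1, bot_sup_eq]
  obtain ⟨n, hn⟩ : ∃ n, finrank W.K V = n + 1 := ⟨finrank W.K V - 1, by omega⟩
  let e : Basis (Fin (n + 1)) W.K V := (Module.finBasis W.K V).reindex (finCongr hn)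
  have hele : LinearIndependent W.K fun j => (e j : W.H Y) :=
    e.linearIndependent.map' V.subtype (Submodule.ker_subtype V)
  have hw0 := wedge_ne_zero hele
  have hgr : wedge W n (fun j => (e j : W.H Y)) ∈ W.gr (pw Y n) ((n + 1) * i) :=
    wedge_gr fun j => hV (e j).2
  have hdom : ∀ g, g ∈ (G.ρ Y).dom := fun g => by
    rw [(hX Y hY).1]; exact Subgroup.mem_top g
  have hline : ∀ g, ∃ a : W.K, (G.ρ (pw Y n)).act g (wedge W n fun j => (e j : W.H Y)) =
      a • wedge W n fun j => (e j : W.H Y) := by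
    intro g
    refine ⟨e.det fun j => ⟨(G.ρ Y).act g (e j), hVs g (hdom g) _ (e j).2⟩, ?_⟩
    rw [act_wedge (good_of_base hX hY g n)]
    exact wedge_lin e V.subtype fun j => ⟨(G.ρ Y).act g (e j), hVs g (hdom g) _ (e j).2⟩
  obtain ⟨j, hj⟩ := hL (pw Y n) (isProd_pw hY n) _ _ hgr hw0 hline
  have hle : finrank W.K V ≤ finrank W.K (W.gr Y i) := Submodule.finrank_mono hV
  obtain ⟨j', u, ⟨-, Δ, hΔ, hu⟩, hu0⟩ := hT n (by omega) j _ hj hw0
  exact complement (fun g hg c hc => (G.isGalois Y).gr_mem g hg i c hc) hV hVs e hu0 Δ hΔ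
    fun g hg hgd => ⟨_, hu g hg hgd⟩

/-- The pairing on the Tate classes and the system of the Tate classes. -/
lemma tateNondeg_of_num (h : (tatePred G).sys.Num Y = ⊥) : TateNondegenerate G Y := by
  intro j c hc hc0
  by_contra hcon
  push Not at hcon
  apply hc0
  have h1 : c ∈ (tatePred G).sys.C Y := ClassPred.sp_of (Q := tatePred G) hc
  have h2 : c ∈ (tatePred G).sys.Num Y := by
    refine ⟨h1, fun d hd => ?_⟩
    have h3 : d ∈ Submodule.span W.K {c : W.H Y | ∃ j, IsTate G Y j c} := hd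
    induction h3 using Submodule.span_induction with
    | mem x hx =>
      obtain ⟨j', hx⟩ := hx
      exact hcon j' x hx
    | zero => rw [mul_zero, map_zero]
    | add a b ha hb iha ihb => rw [mul_add, map_add, iha ha, ihb hb, add_zero]
    | smul r a ha ih => rw [mul_smul_comm, map_smul, ih ha, smul_zero]
  rw [h, Submodule.mem_bot] at h2
  exact h2

end Pool.Agent.Q57.SS
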